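import Mathlib

/-!
# K-semistability of very general Fano complete intersections (MP_2c2240_ag): definitions

Everything lives in `Type` (universe 0).
-/

namespace Pool.Agent.KSS

open MvPolynomial

/-! ### truncated arcs and jets -/

/-- the truncated arc `sum_{μ<L} c_μ t^μ` -/
noncomputable def arc {κ : Type} [Field κ] {L : ℕ} (c : Fin L → κ) : PowerSeries κ :=
  PowerSeries.mk fun μ => if h : μ < L then c ⟨μ, h⟩ else 0

/-- evaluation of a polynomial at a jet -/
noncomputable def ev {k κ V : Type} [Field k] [Field κ] [Algebra k κ] {L : ℕ}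
    (x : V → Fin L → κ) (F : MvPolynomial V k) : PowerSeries κ :=
  aeval (fun i => arc (x i)) F

/-- order in `t`, capped at `L` -/
noncomputable def ordL {κ : Type} [Field κ] (L : ℕ) (f : PowerSeries κ) : ℕ :=
  (min (L : ℕ∞) f.order).toNat

/-- transcendence degree over `k` of a finite family -/
noncomputable def tau (k : Type) {κ J : Type} [Field k] [Field κ] [Algebra k κ] [Fintype J]
    (x : J → κ) : ℕ :=
  sSup {n | ∃ S : Finset J, S.card = n ∧ AlgebraicIndependent k (fun s : S => x s)}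

/-- transcendence degree over `k` of the coefficients of a jet -/
noncomputable def tauJ (k : Type) {κ V : Type} [Field k] [Field κ] [Algebra k κ] [Fintype V]
    {L : ℕ} (x : V → Fin L → κ) : ℕ :=
  tau k (fun p : V × Fin L => x p.1 p.2)

/-- forms of (ordinary) degree `M` vanishing to order `≥ l` on the jet -/
noncomputable def Fil (k : Type) {κ V : Type} [Field k] [Field κ] [Algebra k κ] {L : ℕ}
    (x : V → Fin L → κ) (M l : ℕ) : Submodule k (MvPolynomial V k) where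
  carrier := {F | F.IsHomogeneous M ∧ (PowerSeries.X : PowerSeries κ) ^ l ∣ ev x F}
  add_mem' := by
    rintro F G ⟨hF, hF'⟩ ⟨hG, hG'⟩
    refine ⟨hF.add hG, ?_⟩
    unfold ev at *
    rw [map_add]
    exact dvd_add hF' hG'
  zero_mem' := by
    refine ⟨isHomogeneous_zero V k M, ?_⟩
    unfold ev
    simp
  smul_mem' := by
    rintro c F ⟨hF, hF'⟩
    refine ⟨(homogeneousSubmodule V k M).smul_mem c hF, ?_⟩
    unfold ev at *
    rw [map_smul, Algebra.smul_def]
    exact Dvd.dvd.mul_left hF' _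

/-! ### generic forms, ideals, Hilbert functions -/

/-- `G_i` is homogeneous of degree `d_i` and all the coefficients of all the `G_i` together are
algebraically independent over `ℚ` -/
def Gen {p : ℕ} {V k : Type} [Field k] [CharZero k] (d : Fin p → ℕ)
    (G : Fin p → MvPolynomial V k) : Prop :=
  (∀ i, (G i).IsHomogeneous (d i)) ∧
    AlgebraicIndependent ℚ
      (fun c : Σ i : Fin p, {α : V →₀ ℕ // α.degree = d i} => (G c.1).coeff c.2.1)

/-- degree `M` part of the ideal generated by a set of polynomials -/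
noncomputable def IM {k V : Type} [Field k] (S : Set (MvPolynomial V k)) (M : ℕ) :
    Submodule k (MvPolynomial V k) :=
  (Ideal.span S).restrictScalars k ⊓ homogeneousSubmodule V k M

/-- generating function `∏_{i ∈ B} (1 - t^{d_i}) / (1 - t)^v` -/
noncomputable def HS {p : ℕ} (d : Fin p → ℕ) (v : ℕ) (B : Finset (Fin p)) : PowerSeries ℤ :=
  (∏ i ∈ B, (1 - (PowerSeries.X : PowerSeries ℤ) ^ (d i))) *
      (PowerSeries.invOneSubPow ℤ v : (PowerSeries ℤ)ˣ)

/-- Hilbert function of a complete intersection of the `d_i`, `i ∈ B`, in `v` variables -/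
noncomputable def NN {p : ℕ} (d : Fin p → ℕ) (v : ℕ) (B : Finset (Fin p)) (M : ℕ) : ℤ :=
  PowerSeries.coeff M (HS d v B)

/-- `σ_B(x, M) = ∑_{l=1}^L (dim F^l - N_M + H_B(M))` for a jet `x`; this is
`∑_l dim F^l R_M` for the ring `R = k[X]/(G_i : i ∈ B)` -/
noncomputable def sigB (k : Type) {κ : Type} {p v L : ℕ} [Field k] [Field κ] [Algebra k κ]
    (d : Fin p → ℕ) (B : Finset (Fin p)) (x : Fin v → Fin L → κ) (M : ℕ) : ℝ :=
  ∑ l ∈ Finset.Icc 1 L,
    ((Module.finrank k (Fil k x M l) : ℝ) - (NN d v ∅ M : ℝ) + (NN d v B M : ℝ))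

/-- `∑_{b ≥ 1} H_B(M - b e)` -/
noncomputable def HSum {p : ℕ} (d : Fin p → ℕ) (v : ℕ) (B : Finset (Fin p)) (e M : ℕ) : ℤ :=
  ∑ b ∈ Finset.Icc 1 M, if b * e ≤ M then NN d v B (M - b * e) else 0

/-- the region of the data `(c, ν)` -/
def Reg {p : ℕ} (d : Fin p → ℕ) (v : ℕ) (B : Finset (Fin p)) (M0 : ℕ) (c : Fin p → ℝ)
    (ν : ℕ → ℝ) : Prop :=
  (∀ i, 0 ≤ c i) ∧ (∀ m, 0 ≤ ν m) ∧
    (∑ i ∈ Bᶜ, c i * d i + ∑ m ∈ Finset.range (M0 + 1), ν m * (m * (NN d v B m : ℝ))
      ≤ (v : ℝ) - ∑ i ∈ B, (d i : ℝ)) ∧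
    ∀ i ∈ Bᶜ, c i + ∑ m ∈ Finset.range (M0 + 1), ν m * (HSum d v B (d i) m : ℝ) ≤ 1

/-- the main estimate for the ring `k[X_1..X_v]/(G_i : i ∈ B)` with boundary `∑_{i ∉ B} c_i G_i` -/
def SS {p : ℕ} (d : Fin p → ℕ) (v : ℕ) (B : Finset (Fin p)) (M0 : ℕ) (c : Fin p → ℝ)
    (ν : ℕ → ℝ) : Prop :=
  ∀ (k : Type) [Field k] [CharZero k] (G : Fin p → MvPolynomial (Fin v) k), Gen d G →
    ∀ (κ : Type) [Field κ] [Algebra k κ] (L : ℕ) (x : Fin v → Fin L → κ),
      (∀ i ∈ B, (PowerSeries.X : PowerSeries κ) ^ L ∣ ev x (G i)) →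
        ∑ i ∈ Bᶜ, c i * (ordL L (ev x (G i)) : ℝ) +
          ∑ m ∈ Finset.range (M0 + 1), ν m * sigB k d B x m
        ≤ ((v : ℝ) - B.card) * L - tauJ k x

/-- minimum of the entries of `a ∈ ℕ^d` (`0` if `d = 0`) -/
noncomputable def mina {d : ℕ} (a : Fin d → ℕ) : ℕ := ⨅ i, a i

/-- the exponents `a ∈ ℕ^d` with `|a| ≤ m` -/
noncomputable def Exps (d m : ℕ) : Finset (Fin d → ℕ) :=
  (Fintype.piFinset fun _ : Fin d => Finset.range (m + 1)).filter fun a => ∑ i, a i ≤ m

end Pool.Agent.KSS
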