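import Pool.Agent.Lib_helper77.KSS.Defs

/-!
# KSS: definitions of the final statement

`X_f ⊂ ℙ^{n+k}` is the complete intersection of `k` forms `f_1, …, f_k` of degrees `d_1, …, d_k` in
`n + k + 1` variables.
-/

namespace Pool.Agent.KSS

open MvPolynomial
open scoped ENNReal

variable {N k : ℕ}

/-- homogeneous coordinate ring `ℂ[X_0..X_{N-1}]/(f_1..f_k)` of `X_f` -/
abbrev CoordRing (f : Fin k → MvPolynomial (Fin N) ℂ) : Type :=
  MvPolynomial (Fin N) ℂ ⧸ Ideal.span (Set.range f)

/-- the degree `m` part of the homogeneous coordinate ring; for a complete intersection of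
positive dimension this is `H⁰(X_f, 𝒪(m))` -/
noncomputable def Sec (f : Fin k → MvPolynomial (Fin N) ℂ) (m : ℕ) :
    Submodule ℂ (CoordRing f) :=
  (homogeneousSubmodule (Fin N) ℂ m).map (Ideal.Quotient.mkₐ ℂ (Ideal.span (Set.range f))).toLinearMap

/-- coordinate ring `ℂ[X]/(f, X_j - 1)` of the affine chart `X_j ≠ 0` of `X_f` -/
abbrev Chart (f : Fin k → MvPolynomial (Fin N) ℂ) (j : Fin N) : Type :=
  MvPolynomial (Fin N) ℂ ⧸ Ideal.span (insert (X j - 1) (Set.range f))

/-- A prime divisor `E` over the `n`-dimensional variety `X_f`, given by its discrete valuation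
ring `O = 𝒪_{Y,E}`: a discrete valuation ring containing the coordinate ring of an affine
chart of `X_f` (one that meets the centre of `E`), with the same field of fractions, whose
residue field has transcendence degree `n - 1` over `ℂ`. -/
structure DivisorOver (f : Fin k → MvPolynomial (Fin N) ℂ) (n : ℕ) where
  /-- the chart `X_j ≠ 0` -/
  j : Fin N
  /-- the local ring of the divisor -/
  O : Type
  [commRing : CommRing O]
  [isDomain : IsDomain O]
  [dvr : IsDiscreteValuationRing O]
  [algebra : Algebra ℂ O]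
  /-- restriction of functions -/
  φ : Chart f j →ₐ[ℂ] O
  inj : Function.Injective φ
  birational : ∀ a : O, ∃ b c : Chart f j, c ≠ 0 ∧ φ c * a = φ b
  trdeg : Algebra.trdeg ℂ (IsLocalRing.ResidueField O) + 1 = n

attribute [instance] DivisorOver.commRing DivisorOver.isDomain DivisorOver.dvr
  DivisorOver.algebra

namespace DivisorOver

variable {f : Fin k → MvPolynomial (Fin N) ℂ} {n : ℕ}

/-- local expression along `E` of a section `s ∈ H⁰(X_f, 𝒪(m))`: the function `s / X_j^m`;
on `ℂ[X]/(f)` this is the homomorphism `X_i ↦ X_i / X_j` -/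
noncomputable def loc (E : DivisorOver f n) : CoordRing f →ₐ[ℂ] E.O :=
  E.φ.comp (Ideal.Quotient.factorₐ ℂ (Ideal.span_mono (Set.subset_insert _ _)))

/-- `F^l H⁰(X_f, 𝒪(m))`: sections vanishing to order at least `l` along `E` -/
noncomputable def Fl (E : DivisorOver f n) (m l : ℕ) : Submodule ℂ (CoordRing f) :=
  Sec f m ⊓ ((IsLocalRing.maximalIdeal E.O ^ l).restrictScalars ℂ).comap E.loc.toLinearMap

/-- the log discrepancy `A(E) = 1 + ord_E(K_{Y/X})` of a divisor over a smooth variety:
`1 +` the length of the relative differentials of `𝒪_{Y,E}` over the chart -/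
noncomputable def A (E : DivisorOver f n) : ℕ∞ :=
  letI : Algebra (Chart f E.j) E.O := E.φ.toRingHom.toAlgebra
  1 + Module.length E.O (Ω[E.O⁄Chart f E.j])

/-- `S_M(E) = (1 / (M h⁰(-M K))) ∑_{l ≥ 1} dim F^l H⁰(-M K)`, `-K = 𝒪(r)` -/
noncomputable def S (E : DivisorOver f n) (r M : ℕ) : ℝ≥0∞ :=
  (∑' l : ℕ, (Module.finrank ℂ (E.Fl (r * M) (l + 1)) : ℝ≥0∞)) /
    (M * Module.finrank ℂ (Sec f (r * M)))

/-- volume of `-K - t E`, `-K = 𝒪(r)`: `lim_M n! dim F^{⌈Mt⌉} H⁰(-M K) / M^n` (the limit
exists; the lower limit is taken) -/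
noncomputable def vol (E : DivisorOver f n) (r : ℕ) (t : ℝ) : ℝ≥0∞ :=
  Filter.liminf (fun M : ℕ => (n.factorial : ℝ≥0∞) *
    (Module.finrank ℂ (E.Fl (r * M) ⌈(M : ℝ) * t⌉₊) : ℝ≥0∞) / (M : ℝ≥0∞) ^ n) Filter.atTop

/-- expected vanishing order `S(E) = (1 / vol(-K)) ∫_0^∞ vol(-K - t E) dt` -/
noncomputable def Svol (E : DivisorOver f n) (r : ℕ) : ℝ≥0∞ :=
  (∫⁻ t in Set.Ioi (0 : ℝ), E.vol r t) / E.vol r 0

end DivisorOver

/-- the complete intersection is smooth of codimension `k` (Jacobian criterion): at every common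
zero different from the origin the gradients of `f_1..f_k` are linearly independent -/
def SmoothCI (f : Fin k → MvPolynomial (Fin N) ℂ) : Prop :=
  ∀ x : Fin N → ℂ, x ≠ 0 → (∀ i, eval x (f i) = 0) →
    LinearIndependent ℂ (fun i : Fin k => fun l : Fin N => eval x (pderiv l (f i)))

end Pool.Agent.KSS
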